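import Pool.Agent.H31.XCE.Targets

set_option autoImplicit false

namespace Pool.Agent.H97.XCE

open Finset Pool.Agent.H31.XCE

theorem pow_add_ge (s t : ℝ) (hs : 0 ≤ s) (ht : 0 ≤ t) (r : ℕ) :
    s ^ (r + 1) + (r + 1) * t * s ^ r ≤ (s + t) ^ (r + 1) := by
  induction r with
  | zero => simp
  | succ r ih =>
    have h1 : (s + t) ^ (r + 1 + 1) = (s + t) ^ (r + 1) * (s + t) := pow_succ _ _
    have h2 : (s ^ (r + 1) + (r + 1) * t * s ^ r) * (s + t) ≤ (s + t) ^ (r + 1) * (s + t) :=
      mul_le_mul_of_nonneg_right ih (by positivity)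
    have h3 : (s ^ (r + 1) + (r + 1) * t * s ^ r) * (s + t) = s ^ (r + 1 + 1) +
        (((r + 1 : ℕ) : ℝ) + 1) * t * s ^ (r + 1) + (r + 1) * t * s ^ r * t := by
      push_cast
      ring
    have h4 : 0 ≤ ((r : ℝ) + 1) * t * s ^ r * t := by positivity
    rw [h1]
    linarith

theorem pf_ESY : T_ESY := by
  classical
  intro Q f r hf
  induction Q using Finset.induction generalizing r with
  | empty =>
    cases r with
    | zero => simp
    | succ r =>
      rw [Finset.powersetCard_eq_empty.2 (by simp), Finset.sum_empty, Finset.sum_empty]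
      simp
  | insert a Q ha ih =>
    cases r with
    | zero => simp
    | succ r =>
      rw [Finset.powersetCard_succ_insert ha, Finset.sum_union, Finset.sum_image]
      · have e1 : ∑ R ∈ Q.powersetCard r, ∏ p ∈ insert a R, f p =
            f a * ∑ R ∈ Q.powersetCard r, ∏ p ∈ R, f p := by
          rw [Finset.mul_sum]
          refine Finset.sum_congr rfl fun R hR => ?_
          rw [Finset.prod_insert]
          intro h
          exact ha ((mem_powersetCard.1 hR).1 h)
        rw [e1, Finset.sum_insert ha]
        have hs : 0 ≤ ∑ p ∈ Q, f p := Finset.sum_nonneg fun p _ => hf p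
        set s := ∑ p ∈ Q, f p with hsd
        have h1 := ih (r + 1)
        have h2 := mul_le_mul_of_nonneg_left (ih r) (hf a)
        have h3 := pow_add_ge s (f a) hs (hf a) r
        have h4 : s ^ (r + 1) / ((r + 1).factorial : ℝ) + f a * (s ^ r / (r.factorial : ℝ)) =
            (s ^ (r + 1) + (r + 1) * f a * s ^ r) / ((r + 1).factorial : ℝ) := by
          rw [Nat.factorial_succ]
          push_cast
          field_simp
        have h5 : (s ^ (r + 1) + (r + 1) * f a * s ^ r) / ((r + 1).factorial : ℝ) ≤
            (s + f a) ^ (r + 1) / ((r + 1).factorial : ℝ) :=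
          div_le_div_of_nonneg_right h3 (by positivity)
        rw [add_comm (f a) s]
        linarith
      · intro R hR R' hR' h
        have h1 : a ∉ R := fun h => ha ((mem_powersetCard.1 (mem_coe.1 hR)).1 h)
        have h2 : a ∉ R' := fun h => ha ((mem_powersetCard.1 (mem_coe.1 hR')).1 h)
        have := congrArg (fun T => T.erase a) h
        simpa [Finset.erase_insert h1, Finset.erase_insert h2] using this
      · rw [Finset.disjoint_left]
        intro R hR hR'
        obtain ⟨R'', _, rfl⟩ := mem_image.1 hR'
        exact ha ((mem_powersetCard.1 hR).1 (mem_insert_self a R''))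

end Pool.Agent.H97.XCE
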