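import Pool.Agent.H31.XCE.Targets

set_option autoImplicit false

namespace Pool.Agent.H97.XCE

open Finset Pool.Agent.H31.XCE

theorem sum_blocks (f : ℕ → ℝ) (K m : ℕ) :
    ∑ y ∈ range (m * K), f y = ∑ t ∈ range m, ∑ r ∈ range K, f (r + K * t) := by
  induction m with
  | zero => simp
  | succ m ih =>
    rw [Nat.succ_mul, Finset.sum_range_add, ih, Finset.sum_range_succ]
    congr 1
    refine Finset.sum_congr rfl fun r _ => ?_
    rw [Nat.mul_comm m K, Nat.add_comm]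

theorem pf_SNG (hC : T_CDB) : T_SNG := by
  classical
  intro n ρ ν S hS hρ hN
  unfold NoSing at hN
  push Not at hN
  obtain ⟨x0, hx0⟩ := hN
  obtain ⟨p0, hp0⟩ : ∃ p, p = ρ x0 := ⟨_, rfl⟩
  obtain ⟨K, hK⟩ : ∃ K, K = ∏ p ∈ (univ.image ρ).erase p0, p := ⟨_, rfl⟩
  have hprod : ∏ p ∈ univ.image ρ, p = p0 * K := by
    rw [hK, Finset.mul_prod_erase _ (fun p => p)]
    rw [hp0]
    exact mem_image_of_mem _ (mem_univ _)
  have hcop : K.Coprime p0 := by
    rw [hK]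
    refine Nat.Coprime.prod_left fun p hp => ?_
    rw [mem_erase, mem_image] at hp
    obtain ⟨hne, x, -, rfl⟩ := hp
    exact (Nat.coprime_primes (hρ x).1 (by rw [hp0]; exact (hρ x0).1)).2 hne
  have hdvd : ∀ x, x ≠ x0 → ρ x ∣ K := by
    intro x hx
    rw [hK]
    refine Finset.dvd_prod_of_mem (fun p => p) ?_
    rw [mem_erase]
    exact ⟨by rw [hp0]; exact hx0 x hx, mem_image_of_mem _ (mem_univ _)⟩
  rw [hprod, sum_blocks, Finset.sum_comm]
  refine Finset.sum_eq_zero fun r _ => ?_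
  have hterm : ∀ t ∈ range p0, ∏ x, cd (ρ x) (S * ((r + K * t : ℕ) : ℤ) + ν x) =
      (∏ x ∈ univ.erase x0, cd (ρ x) (S * (r : ℤ) + ν x)) *
        cd p0 (S * ((r + K * t : ℕ) : ℤ) + ν x0) := by
    intro t _
    rw [← Finset.mul_prod_erase univ _ (mem_univ x0), mul_comm, ← hp0]
    congr 1
    refine Finset.prod_congr rfl fun x hx => ?_
    obtain ⟨k, hk⟩ := hdvd x (ne_of_mem_erase hx)
    have := ((hC (ρ x) (hρ x).1).2.1 S r (ν x) (k * t)).1
    rw [hk, mul_assoc]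
    exact this
  rw [Finset.sum_congr rfl hterm, ← Finset.mul_sum]
  have h3 := (hC p0 (by rw [hp0]; exact (hρ x0).1)).2.2 S K r (ν x0) hS
    (by rw [hp0]; exact (hρ x0).2) hcop
  rw [h3, mul_zero]

end Pool.Agent.H97.XCE
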